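import Pool.Agent.Q57.QP.Stm

set_option autoImplicit false

/-! # Rational coordinates on a surface of degree two (algebra) -/

namespace Pool.Agent.Q137.QP
open MvPolynomial

/-- a polynomial of degree at most two in three variables -/
theorem quad {K : Type} [Field K] (q : MvPolynomial (Fin 3) K) (h : q.totalDegree ≤ 2) :
    q = C (coeff 0 q) + (C (coeff (Finsupp.single 0 1) q) * X 0 +
      C (coeff (Finsupp.single 1 1) q) * X 1 + C (coeff (Finsupp.single 2 1) q) * X 2) +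
      (C (coeff (Finsupp.single 0 2) q) * (X 0 * X 0) +
      C (coeff (Finsupp.single 1 2) q) * (X 1 * X 1) +
      C (coeff (Finsupp.single 2 2) q) * (X 2 * X 2) +
      C (coeff (Finsupp.single 0 1 + Finsupp.single 1 1) q) * (X 0 * X 1) +
      C (coeff (Finsupp.single 0 1 + Finsupp.single 2 1) q) * (X 0 * X 2) +
      C (coeff (Finsupp.single 1 1 + Finsupp.single 2 1) q) * (X 1 * X 2)) := by
  classical
  have key : ∀ m : Fin 3 →₀ ℕ, m = Finsupp.single 0 (m 0) + Finsupp.single 1 (m 1) +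
      Finsupp.single 2 (m 2) := by
    intro m
    ext i
    fin_cases i <;> simp
  have hX : ∀ i k : Fin 3, (X i * X k : MvPolynomial (Fin 3) K) =
      monomial (Finsupp.single i 1 + Finsupp.single k 1) 1 := by
    intro i k
    rw [X, X, monomial_mul, one_mul]
  ext m
  simp only [hX]
  by_cases hm : m 0 + m 1 + m 2 ≤ 2
  · obtain ⟨a, b, c, ha, hb, hc⟩ : ∃ a b c, a = m 0 ∧ b = m 1 ∧ c = m 2 := ⟨_, _, _, rfl, rfl, rfl⟩
    have hm' := key m
    rw [← ha, ← hb, ← hc] at hm hm'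
    have ha2 : a ≤ 2 := by omega
    have hb2 : b ≤ 2 := by omega
    have hc2 : c ≤ 2 := by omega
    clear ha hb hc
    subst hm'
    simp only [coeff_add, coeff_C_mul, coeff_monomial, coeff_C, X]
    interval_cases a <;> interval_cases b <;> interval_cases c <;>
      first
      | (exfalso; omega)
      | (simp [Finsupp.ext_iff, Fin.forall_fin_succ, Finsupp.single_apply])
  · have h1 : coeff m q = 0 := by
      apply coeff_eq_zero_of_totalDegree_lt
      refine lt_of_le_of_lt h ?_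
      have : ∑ i ∈ m.support, m i = m 0 + m 1 + m 2 := by
        have := Finsupp.sum_fintype m (fun _ x => x) (by simp)
        rw [Finsupp.sum] at this
        rw [this, Fin.sum_univ_three]
      omega
    rw [h1]
    simp only [coeff_add, coeff_C_mul, coeff_monomial, coeff_C, X]
    have h0 : ∀ m' : Fin 3 →₀ ℕ, m' 0 + m' 1 + m' 2 ≤ 2 → ¬ m' = m := by
      rintro m' h2 rfl
      exact hm h2
    rw [if_neg (h0 _ (by simp)), if_neg (h0 _ (by simp)), if_neg (h0 _ (by simp)),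
      if_neg (h0 _ (by simp)), if_neg (h0 _ (by simp)), if_neg (h0 _ (by simp)),
      if_neg (h0 _ (by simp)), if_neg (h0 _ (by simp)), if_neg (h0 _ (by simp)),
      if_neg (h0 _ (by simp))]
    simp

/-- the rational coordinates of a surface of degree two -/
theorem ratc {R : Type} [CommRing R] (l0 l1 b a00 a11 a22 a01 a02 a12 ρ w u s z : R)
    (e : w * (1 - ρ * z) = 1) (hb : ρ * b = a22) :
    l0 * (w * u) + l1 * (w * s) + b * (w * z) + (a00 * ((w * u) * (w * u)) +
      a11 * ((w * s) * (w * s)) + a22 * ((w * z) * (w * z)) + a01 * ((w * u) * (w * s)) +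
      a02 * ((w * u) * (w * z)) + a12 * ((w * s) * (w * z))) =
    w ^ 2 * (z * (b + (a02 - ρ * l0) * u + (a12 - ρ * l1) * s) +
      (l0 * u + l1 * s + a00 * u ^ 2 + a01 * (u * s) + a11 * s ^ 2)) := by
  subst hb
  linear_combination (-(w * (l0 * u + l1 * s + b * z))) * e

theorem c0 {R : Type} [CommRing R] (B n ρ w v u z : R) (hw : w * v = 1) (hz : v = 1 - ρ * z) :
    (B + ρ * n) * (w * u) = u * B + w ^ 2 * (z * B + n) * (ρ * u * v) := by
  linear_combination (u * B - w * (z * B + n) * ρ * u) * hw - u * B * w * hz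

theorem c2 {R : Type} [CommRing R] (B n ρ w v z : R) (hw : w * v = 1) (hz : v = 1 - ρ * z) :
    (B + ρ * n) * (w * z) = - n + w ^ 2 * (z * B + n) * v := by
  linear_combination (-n - w * (z * B + n)) * hw + n * w * hz

theorem prd {S : Type} [CommRing S] (N0 N1 N2 g0 g1 g2 q : S) (m0 m1 m2 : ℕ) :
    ∃ P : S, (N0 + q * g0) ^ m0 * (N1 + q * g1) ^ m1 * (N2 + q * g2) ^ m2 =
      N0 ^ m0 * N1 ^ m1 * N2 ^ m2 + q * P := by
  have h : q ∣ (N0 + q * g0) ^ m0 * (N1 + q * g1) ^ m1 * (N2 + q * g2) ^ m2 -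
      N0 ^ m0 * N1 ^ m1 * N2 ^ m2 := by
    rw [← Ideal.mem_span_singleton, ← Ideal.Quotient.eq]
    have hq : Ideal.Quotient.mk (Ideal.span {q}) q = 0 :=
      Ideal.Quotient.eq_zero_iff_mem.2 (Ideal.mem_span_singleton_self q)
    simp [hq]
  obtain ⟨P, hP⟩ := h
  exact ⟨P, by rw [← hP]; ring⟩

theorem qp_alg : Pool.Agent.Q57.QP.StAlg := by
  classical
  intro K _ r f i0 hc hdeg hb
  obtain ⟨l0, hl0⟩ : ∃ x, x = coeff (Finsupp.single 0 1) (f i0) := ⟨_, rfl⟩
  obtain ⟨l1, hl1⟩ : ∃ x, x = coeff (Finsupp.single 1 1) (f i0) := ⟨_, rfl⟩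
  obtain ⟨b, hbb⟩ : ∃ x, x = coeff (Finsupp.single 2 1) (f i0) := ⟨_, rfl⟩
  obtain ⟨a00, h00⟩ : ∃ x, x = coeff (Finsupp.single 0 2) (f i0) := ⟨_, rfl⟩
  obtain ⟨a11, h11⟩ : ∃ x, x = coeff (Finsupp.single 1 2) (f i0) := ⟨_, rfl⟩
  obtain ⟨a22, h22⟩ : ∃ x, x = coeff (Finsupp.single 2 2) (f i0) := ⟨_, rfl⟩
  obtain ⟨a01, h01⟩ : ∃ x, x = coeff (Finsupp.single 0 1 + Finsupp.single 1 1) (f i0) := ⟨_, rfl⟩
  obtain ⟨a02, h02⟩ : ∃ x, x = coeff (Finsupp.single 0 1 + Finsupp.single 2 1) (f i0) := ⟨_, rfl⟩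
  obtain ⟨a12, h12⟩ : ∃ x, x = coeff (Finsupp.single 1 1 + Finsupp.single 2 1) (f i0) := ⟨_, rfl⟩
  have hq := quad (f i0) hdeg
  rw [← hl0, ← hl1, ← hbb, ← h00, ← h11, ← h22, ← h01, ← h02, ← h12,
    show coeff 0 (f i0) = 0 from hc, C_0, zero_add] at hq
  rw [← hbb] at hb
  obtain ⟨ρ, hρ⟩ : ∃ ρ : K, ρ * b = a22 := ⟨a22 / b, div_mul_cancel₀ _ hb⟩
  let n : MvPolynomial (Fin 2) K := C l0 * X 0 + C l1 * X 1 + C a00 * X 0 ^ 2 +
    C a01 * (X 0 * X 1) + C a11 * X 1 ^ 2
  let B : MvPolynomial (Fin 2) K := C b + (C a02 - C ρ * C l0) * X 0 + (C a12 - C ρ * C l1) * X 1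
  let D : MvPolynomial (Fin 2) K := B + C ρ * n
  let N0 : MvPolynomial (Fin 2) K := X 0 * B
  let N1 : MvPolynomial (Fin 2) K := X 1 * B
  let N2 : MvPolynomial (Fin 2) K := - n
  let e : ℕ := Finset.univ.sup fun j => (f j).totalDegree
  let sub : MvPolynomial (Fin 2) K → MvPolynomial (Fin 4) K := fun g =>
    g.eval₂ C ![X 0 * X 3, X 1 * X 3]
  let q4 : MvPolynomial (Fin 4) K := (f i0).eval₂ C ![X 0, X 1, X 2]
  have hP : ∀ m : Fin 3 →₀ ℕ, ∃ P : MvPolynomial (Fin 4) K,
      (sub N0 + q4 * (C ρ * (X 0 * X 3) * X 3)) ^ m 0 *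
      (sub N1 + q4 * (C ρ * (X 1 * X 3) * X 3)) ^ m 1 * (sub N2 + q4 * X 3) ^ m 2 =
      sub N0 ^ m 0 * sub N1 ^ m 1 * sub N2 ^ m 2 + q4 * P := fun m => prd _ _ _ _ _ _ _ _ _ _
  choose P hP using hP
  refine ⟨ρ, D, e,
    fun j => if j = i0 then 0 else ∑ m ∈ (f j).support, C (coeff m (f j)) *
      (D ^ (e - (m 0 + m 1 + m 2)) * (N0 ^ m 0 * N1 ^ m 1 * N2 ^ m 2)),
    fun j => if j = i0 then sub D ^ e else ∑ m ∈ (f j).support, C (coeff m (f j)) *
      (sub D ^ (e - (m 0 + m 1 + m 2)) * P m), ?_, ?_, ?_⟩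
  · simp only [D, B, n, map_add, map_sub, map_mul, map_pow, constantCoeff_C, constantCoeff_X,
      mul_zero, add_zero, zero_pow two_ne_zero]
    simpa using hb
  · simp
  · intro R _ ψ y v hv j
    let ev : MvPolynomial (Fin 4) K →+* R := eval₂Hom ψ ![y 0, y 1, y 2, v]
    have hevC : ∀ a : K, ev (C a) = ψ a := fun a => by simp [ev]
    have hev0 : ev (X 0) = y 0 := by simp [ev]
    have hev1 : ev (X 1) = y 1 := by simp [ev]
    have hev2 : ev (X 2) = y 2 := by simp [ev]
    have hev3 : ev (X 3) = v := by simp [ev]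
    have hsub : ∀ g : MvPolynomial (Fin 2) K, ev (sub g) = g.eval₂ ψ ![y 0 * v, y 1 * v] := by
      intro g
      simp only [sub]
      rw [eval₂_comp_left]
      congr 1
      · ext a; exact hevC a
      · funext i
        fin_cases i
        · simp [hev0, hev3]
        · simp [hev1, hev3]
    have hq4 : ev q4 = (f i0).eval₂ ψ y := by
      simp only [q4]
      rw [eval₂_comp_left]
      congr 1
      · ext a; exact hevC a
      · funext i
        fin_cases i
        · simp [hev0]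
        · simp [hev1]
        · simp [hev2]
    have hGev : ∀ g : MvPolynomial (Fin 4) K, g.eval₂ ψ ![y 0, y 1, y 2, v] = ev g := fun g => rfl
    by_cases hj : j = i0
    · subst hj
      simp only [if_true, hGev, map_pow, hsub]
      simp only [eval₂_zero, zero_add]
      ring
    · simp only [if_neg hj, hGev]
      obtain ⟨F, hF⟩ : ∃ F : MvPolynomial (Fin 2) K →+* R,
          F = eval₂Hom ψ ![y 0 * v, y 1 * v] := ⟨_, rfl⟩
      have hFev : ∀ g : MvPolynomial (Fin 2) K, g.eval₂ ψ ![y 0 * v, y 1 * v] = F g := by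
        intro g; rw [hF]; rfl
      have hFC : ∀ a : K, F (C a) = ψ a := fun a => by simp [hF]
      have hF0 : F (X 0) = y 0 * v := by simp [hF]
      have hF1 : F (X 1) = y 1 * v := by simp [hF]
      have hsub' : ∀ g, ev (sub g) = F g := fun g => by rw [hsub, hFev]
      simp only [hFev]
      obtain ⟨Q, hQ⟩ : ∃ Q, Q = (f i0).eval₂ ψ y := ⟨_, rfl⟩
      rw [← hQ] at hq4 ⊢
      have hnF : F n = ψ l0 * (y 0 * v) + ψ l1 * (y 1 * v) + ψ a00 * (y 0 * v) ^ 2 +
          ψ a01 * ((y 0 * v) * (y 1 * v)) + ψ a11 * (y 1 * v) ^ 2 := by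
        simp only [n, map_add, map_mul, map_pow, hFC, hF0, hF1]
      have hBF : F B = ψ b + (ψ a02 - ψ ρ * ψ l0) * (y 0 * v) +
          (ψ a12 - ψ ρ * ψ l1) * (y 1 * v) := by
        simp only [B, map_add, map_mul, map_sub, hFC, hF0, hF1]
      have hDF : F D = F B + ψ ρ * F n := by simp only [D, map_add, map_mul, hFC]
      have hN0F : F N0 = y 0 * v * F B := by simp only [N0, map_mul, hF0]
      have hN1F : F N1 = y 1 * v * F B := by simp only [N1, map_mul, hF1]
      have hN2F : F N2 = - F n := by simp only [N2, map_neg]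
      have hv' : v = 1 - ψ ρ * (y 2 * v) := by linear_combination hv
      have e1 : (1 + ψ ρ * y 2) * (1 - ψ ρ * (y 2 * v)) = 1 := by rw [← hv']; exact hv
      have ey0 : (1 + ψ ρ * y 2) * (y 0 * v) = y 0 := by linear_combination y 0 * hv
      have ey1 : (1 + ψ ρ * y 2) * (y 1 * v) = y 1 := by linear_combination y 1 * hv
      have ey2 : (1 + ψ ρ * y 2) * (y 2 * v) = y 2 := by linear_combination y 2 * hv
      have hρ' : ψ ρ * ψ b = ψ a22 := by rw [← map_mul, hρ]
      have hQ2 : Q = (1 + ψ ρ * y 2) ^ 2 * (y 2 * v * F B + F n) := by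
        have := ratc (ψ l0) (ψ l1) (ψ b) (ψ a00) (ψ a11) (ψ a22) (ψ a01) (ψ a02) (ψ a12) (ψ ρ)
          (1 + ψ ρ * y 2) (y 0 * v) (y 1 * v) (y 2 * v) e1 hρ'
        rw [ey0, ey1, ey2, ← hBF, ← hnF] at this
        rw [← this, hQ]
        conv_lhs => rw [hq]
        simp only [eval₂_add, eval₂_mul, eval₂_C, eval₂_X]
      have g0 : F D * y 0 = F N0 + Q * (ψ ρ * (y 0 * v) * v) := by
        rw [hN0F, hDF, hQ2]
        have := c0 (F B) (F n) (ψ ρ) (1 + ψ ρ * y 2) v (y 0 * v) (y 2 * v) hv hv'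
        rwa [ey0] at this
      have g1 : F D * y 1 = F N1 + Q * (ψ ρ * (y 1 * v) * v) := by
        rw [hN1F, hDF, hQ2]
        have := c0 (F B) (F n) (ψ ρ) (1 + ψ ρ * y 2) v (y 1 * v) (y 2 * v) hv hv'
        rwa [ey1] at this
      have g2 : F D * y 2 = F N2 + Q * v := by
        rw [hN2F, hDF, hQ2]
        have := c2 (F B) (F n) (ψ ρ) (1 + ψ ρ * y 2) v (y 2 * v) hv hv'
        rwa [ey2] at this
      have hm : ∀ m, (F D * y 0) ^ m 0 * (F D * y 1) ^ m 1 * (F D * y 2) ^ m 2 =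
          F N0 ^ m 0 * F N1 ^ m 1 * F N2 ^ m 2 + Q * ev (P m) := by
        intro m
        have := congrArg ev (hP m)
        simp only [map_mul, map_add, map_pow, hsub', hq4, hevC, hev0, hev1, hev3] at this
        rw [g0, g1, g2]
        exact this
      rw [eval₂_eq', map_sum, map_sum, Finset.mul_sum, Finset.mul_sum, ← Finset.sum_add_distrib]
      refine Finset.sum_congr rfl fun m hms => ?_
      have hle : m 0 + m 1 + m 2 ≤ e := by
        have h1 := le_totalDegree hms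
        have h2 : (f j).totalDegree ≤ e :=
          Finset.le_sup (f := fun j => (f j).totalDegree) (Finset.mem_univ j)
        rw [Finsupp.sum_fintype m (fun _ x => x) (by simp), Fin.sum_univ_three] at h1
        omega
      have hDe : F D ^ e = F D ^ (e - (m 0 + m 1 + m 2)) * (F D ^ m 0 * F D ^ m 1 * F D ^ m 2) := by
        rw [← pow_add, ← pow_add, ← pow_add]
        congr 1
        omega
      rw [Fin.prod_univ_three]
      simp only [map_mul, map_pow, hFC, hevC, hsub']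
      have hm' := hm m
      simp only [mul_pow] at hm'
      rw [hDe]
      linear_combination (ψ (coeff m (f j)) * F D ^ (e - (m 0 + m 1 + m 2))) * hm'

end Pool.Agent.Q137.QP
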